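import Pool.Agent.N889.WU.Stm2

set_option autoImplicit false

open Polynomial IntermediateField

namespace Pool.Agent.N822.WU

open Pool.Agent.N889.WU

universe u

theorem t_MAIN (h1 : S_P1.{u}) (h2 : S_P2.{u}) : S_MAIN.{u} := by
  intro p s _ k L _ _ _ _ _ t hs h c hs1 hp hfin hc
  have hP1 := h1 p s k L t hs h c hs1 hp hfin hc
  refine ⟨hP1, ?_⟩
  intro z hz
  have hP2 := h2 p s k L t hs h c hs1 hp hfin hc
  set f := fm p s h c with hf
  -- some iterate is periodic
  have hni : ¬ Function.Injective (fun m : ℕ => f^[m] z) := by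
    intro hinj
    exact Set.infinite_range_of_injective hinj hz
  have hex : ∃ m, f^[m] z ∈ Function.periodicPts f := by
    simp only [Function.Injective, not_forall] at hni
    obtain ⟨a, b, hab, hne⟩ := hni
    have key : ∀ a b : ℕ, f^[a] z = f^[b] z → a < b → f^[a] z ∈ Function.periodicPts f := by
      intro a b hab hlt
      refine Function.mk_mem_periodicPts (n := b - a) (by omega) ?_
      show f^[b - a] (f^[a] z) = f^[a] z
      rw [← Function.iterate_add_apply, Nat.sub_add_cancel hlt.le]
      exact hab.symm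
    rcases lt_or_gt_of_ne hne with hlt | hlt
    · exact ⟨a, key a b hab hlt⟩
    · exact ⟨b, key b a hab.symm hlt⟩
  classical
  obtain ⟨m, hm, hmin⟩ : ∃ m, f^[m] z ∈ Function.periodicPts f ∧
      ∀ n < m, f^[n] z ∉ Function.periodicPts f :=
    ⟨Nat.find hex, Nat.find_spec hex, fun n hn => Nat.find_min hex hn⟩
  have hper : ∀ w ∈ Function.periodicPts f, f w ∈ Function.periodicPts f := by
    intro w hw
    obtain ⟨n, hn, hw⟩ := hw
    exact ⟨n, hn, hw.map (Function.Commute.refl f)⟩
  have hfix : f (f^[m] z) = f^[m] z := hP1 _ (hper _ hm) _ hm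
  rcases Nat.lt_or_ge m 2 with h2m | h2m
  · interval_cases m
    · exact hper _ hm
    · exact hm
  · exfalso
    obtain ⟨j, rfl⟩ := Nat.exists_eq_add_of_le' h2m
    have e1 : f (f (f^[j] z)) = f^[j + 2] z := by
      rw [Function.iterate_succ_apply', Function.iterate_succ_apply']
    have := hP2 (f^[j] z) (f^[j + 2] z) hfix e1
    have e2 : f^[j + 1] z = f^[j + 2] z := by
      rw [Function.iterate_succ_apply' f j]
      exact this
    apply hmin (j + 1) (by omega)
    rw [e2]
    exact hm

end Pool.Agent.N822.WU
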